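import Pool.Agent.helper41.HFE.Spec

/-!
# Project HFE (MP_3221a1_ag), row DFQ: dimension of the quotient by `V m n ⊔ J`
-/

set_option autoImplicit false

open Polynomial Module Pool.Agent.HFN

namespace Pool.Agent.HFE

noncomputable section

theorem DFQ_gen {K M : Type} [Field K] [AddCommGroup M] [Module K M] (W X : Submodule K M) [FiniteDimensional K (M ⧸ W)] [FiniteDimensional K X] :
    finrank K (M ⧸ (X ⊔ W : Submodule K M)) + finrank K X = finrank K (X ⊓ W : Submodule K M) + finrank K (M ⧸ W) := by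
  have h1 := LinearMap.finrank_range_add_finrank_ker (W.mkQ.domRestrict X)
  have h2 : LinearMap.range (W.mkQ.domRestrict X) = X.map W.mkQ := by
    ext y
    constructor
    · rintro ⟨x, rfl⟩
      exact ⟨x, x.2, rfl⟩
    · rintro ⟨x, hx, rfl⟩
      exact ⟨⟨x, hx⟩, rfl⟩
  have h3 : (LinearMap.ker (W.mkQ.domRestrict X)).map X.subtype = X ⊓ W := by
    ext y
    constructor
    · rintro ⟨x, hx, rfl⟩
      refine ⟨x.2, ?_⟩
      have h : W.mkQ x = 0 := hx
      exact (Submodule.Quotient.mk_eq_zero W).1 h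
    · rintro ⟨hx, hw⟩
      exact ⟨⟨y, hx⟩, (Submodule.Quotient.mk_eq_zero W).2 hw, rfl⟩
  have h4 : finrank K (LinearMap.ker (W.mkQ.domRestrict X)) = finrank K (X ⊓ W : Submodule K M) := by
    rw [← h3]
    exact (Submodule.finrank_map_subtype_eq X _).symm
  have h5 := Submodule.finrank_quotient_add_finrank (X.map W.mkQ)
  have h6 : finrank K ((M ⧸ W) ⧸ X.map W.mkQ) = finrank K (M ⧸ (X ⊔ W : Submodule K M)) := by
    rw [LinearEquiv.finrank_eq (Submodule.quotientQuotientEquivQuotientSup W X)]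
    exact LinearEquiv.finrank_eq (Submodule.quotEquivOfEq _ _ (sup_comm W X))
  rw [h2] at h1
  omega

/-- **DFQ** -/
theorem DFQ : DFQ_stmt := by
  intro J hJ m n
  haveI : FiniteDimensional ℂ (AA ⧸ (J.restrictScalars ℂ : Submodule ℂ AA)) := hJ
  have h := DFQ_gen (J.restrictScalars ℂ) (V m n)
  rw [finrank_V] at h
  exact h

end

end Pool.Agent.HFE
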